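import Pool.Agent.Q72.DS.Stm

/-!
# Project DS (helper72), job ENT: derivatives and differences share poles only for entire functions
-/

set_option autoImplicit false

namespace Pool.Agent.Q38.DS

open Complex Metric Set Filter Topology
open Pool.Agent.Q72.DS

theorem ord_deriv_nonneg {f : ℂ → ℂ} {z : ℂ} (hf : MeromorphicAt f z) (h : 0 ≤ meromorphicOrderAt f z) :
    0 ≤ meromorphicOrderAt (deriv f) z := by
  obtain ⟨g, hg, hfg⟩ := hf.meromorphicOrderAt_nonneg_iff.1 h
  rw [meromorphicOrderAt_congr hfg.nhdsNE_deriv]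
  exact hg.deriv.meromorphicOrderAt_nonneg

/-- the order of the difference -/
theorem step (f : ℂ → ℂ) (c : ℂ) (hf : MeromorphicOn f univ)
    (h : ∀ z, meromorphicOrderAt (deriv f) z < 0 ∨ meromorphicOrderAt (fun w => f (w + c) - f w) z < 0 →
      meromorphicOrderAt (deriv f) z = meromorphicOrderAt (fun w => f (w + c) - f w) z) (m : ℤ) (hm : 1 ≤ m)
    (z₀ : ℂ) (h0 : meromorphicOrderAt f z₀ = ((-m : ℤ) : WithTop ℤ)) :
    2 ≤ m ∧ meromorphicOrderAt f (z₀ - c) = ((-(m - 1) : ℤ) : WithTop ℤ) := by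
  set z₁ := z₀ - c with hz₁
  have hf1 : MeromorphicAt f z₁ := hf z₁ (mem_univ _)
  have hnf1 : MeromorphicAt (-f) z₁ := hf1.neg
  have e1 : meromorphicOrderAt (f ∘ (· + c)) z₁ = ((-m : ℤ) : WithTop ℤ) := by
    rw [meromorphicOrderAt_comp_add_const_eq_meromorphicOrderAt, hz₁, sub_add_cancel, h0]
  have hfc : MeromorphicAt (f ∘ (· + c)) z₁ := by
    by_contra hcon
    rw [meromorphicOrderAt_of_not_meromorphicAt hcon] at e1
    have : (0 : ℤ) = -m := by exact_mod_cast e1
    omega
  have hD : (fun w => f (w + c) - f w) = f ∘ (· + c) + (-f) := by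
    funext w
    simp [sub_eq_add_neg]
  have hneg : meromorphicOrderAt (-f) z₁ = meromorphicOrderAt f z₁ := meromorphicOrderAt_neg.symm
  rcases lt_or_ge (meromorphicOrderAt f z₁) 0 with ho | ho
  · -- a pole
    lift meromorphicOrderAt f z₁ to ℤ using ho.ne_top with n hn
    have hn0 : n < 0 := by exact_mod_cast ho
    have hd : meromorphicOrderAt (deriv f) z₁ = ((n - 1 : ℤ) : WithTop ℤ) :=
      meromorphicOrderAt_deriv_eq_sub_one (Int.cast_ne_zero.2 hn0.ne) hn.symm
    have hlt : meromorphicOrderAt (deriv f) z₁ < 0 := by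
      rw [hd]
      exact_mod_cast (by omega : n - 1 < 0)
    have heq := h z₁ (Or.inl hlt)
    rw [hd, hD] at heq
    rcases eq_or_ne (-m) n with hmn | hmn
    · have h2 := meromorphicOrderAt_add hfc hnf1
      rw [e1, hneg, ← heq, hmn] at h2
      have h3 : min ((n : ℤ) : WithTop ℤ) ((n : ℤ) : WithTop ℤ) = ((n : ℤ) : WithTop ℤ) := min_self _
      have h4 : n ≤ n - 1 := by
        rw [h3] at h2
        exact_mod_cast h2
      omega
    · have h2 := meromorphicOrderAt_add_of_ne hfc hnf1 (by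
        rw [e1, hneg]
        exact_mod_cast hmn)
      rw [e1, hneg, ← heq] at h2
      have h3 : n - 1 = min (-m) n := by exact_mod_cast h2
      have h4 : n = -(m - 1) := by omega
      refine ⟨by omega, ?_⟩
      rw [h4]
  · -- no pole
    exfalso
    have hlt : meromorphicOrderAt (f ∘ (· + c)) z₁ < meromorphicOrderAt (-f) z₁ := by
      rw [e1, hneg]
      refine lt_of_lt_of_le ?_ ho
      exact_mod_cast (by omega : -m < 0)
    have h2 := meromorphicOrderAt_add_eq_left_of_lt hnf1 hlt
    rw [← hD, e1] at h2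
    have h3 : meromorphicOrderAt (fun w => f (w + c) - f w) z₁ < 0 := by
      rw [h2]
      exact_mod_cast (by omega : -m < 0)
    have heq := h z₁ (Or.inr h3)
    have h4 := ord_deriv_nonneg hf1 ho
    rw [heq] at h4
    exact absurd h3 (not_lt.2 h4)

theorem no_pole (f : ℂ → ℂ) (c : ℂ) (hf : MeromorphicOn f univ)
    (h : ∀ z, meromorphicOrderAt (deriv f) z < 0 ∨ meromorphicOrderAt (fun w => f (w + c) - f w) z < 0 →
      meromorphicOrderAt (deriv f) z = meromorphicOrderAt (fun w => f (w + c) - f w) z) (m : ℕ) :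
    ∀ z₀ : ℂ, meromorphicOrderAt f z₀ ≠ ((-((m : ℤ) + 1) : ℤ) : WithTop ℤ) := by
  induction m with
  | zero =>
    intro z₀ h0
    have := (step f c hf h _ (by omega) z₀ h0).1
    omega
  | succ m ih =>
    intro z₀ h0
    have h1 := (step f c hf h _ (by push_cast; omega) z₀ h0).2
    apply ih (z₀ - c)
    rw [h1]
    congr 1
    push_cast
    ring

/-- Job ENT. -/
theorem ent : S_ent := by
  intro f c hf _ h
  have hnn : ∀ z, 0 ≤ meromorphicOrderAt f z := by
    intro z
    by_contra hcon
    rw [not_le] at hcon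
    obtain ⟨n, hn⟩ := WithTop.ne_top_iff_exists.1 hcon.ne_top
    have hn0 : n < 0 := by
      rw [← hn] at hcon
      exact_mod_cast hcon
    apply no_pole f c hf h (-n - 1).toNat z
    rw [← hn]
    congr 1
    omega
  refine ⟨toMeromorphicNFOn f univ, ?_, toMeromorphicNFOn_eqOn_codiscrete hf⟩
  intro z
  have h1 := meromorphicNFOn_toMeromorphicNFOn f univ (mem_univ z)
  have h2 : 0 ≤ meromorphicOrderAt (toMeromorphicNFOn f univ) z := by
    rw [meromorphicOrderAt_toMeromorphicNFOn hf (mem_univ z)]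
    exact hnn z
  exact (h1.meromorphicOrderAt_nonneg_iff_analyticAt.1 h2).differentiableAt

end Pool.Agent.Q38.DS
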