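import Pool.Agent.Q72.DS.Stm

/-!
# Project DS (helper72), job HYP: the hyper-order of a polynomial of degree at most one
-/

set_option autoImplicit false

namespace Pool.Agent.Q38.DS

open Complex Metric Set Filter Topology ValueDistribution
open Pool.Agent.Q72.DS

theorem char_lin (a b : ℂ) (r : ℝ) : characteristic (fun z : ℂ => a * z + b) ⊤ r =
    Real.circleAverage (fun z : ℂ => Real.posLog ‖a * z + b‖) 0 r := by
  have h1 : logCounting (fun z : ℂ => a * z + b) ⊤ = 0 := by
    have h2 : (fun z : ℂ => a * z + b) = (fun _ : ℂ => (0 : ℂ)) + fun z : ℂ => a * z + b := by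
      funext z; simp
    have h3 : AnalyticOn ℂ (fun z : ℂ => a * z + b) univ := by
      have : Differentiable ℂ (fun z : ℂ => a * z + b) := by fun_prop
      exact (this.differentiableOn.analyticOnNhd isOpen_univ).analyticOn
    rw [h2, logCounting_add_analyticOn (fun z => MeromorphicAt.const 0 z) h3]
    exact logCounting_const
  unfold characteristic
  rw [Pi.add_apply, h1, Pi.zero_apply, add_zero, proximity_top]

theorem hyp : S_hyp := by
  intro f a b hf
  have key : ∃ K : ℝ, ∀ᶠ r : ℝ in atTop,
      Real.log (Real.log (characteristic f ⊤ r)) / Real.log r ≤ K := by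
    have hT : ∀ r : ℝ, r ≠ 0 → characteristic f ⊤ r =
        Real.circleAverage (fun z : ℂ => Real.posLog ‖a * z + b‖) 0 r := by
      intro r hr
      rw [characteristic_congr_codiscrete hf hr, char_lin]
    rcases eq_or_ne a 0 with ha | ha
    · subst ha
      refine ⟨|Real.log (Real.log (Real.posLog ‖b‖))|, ?_⟩
      filter_upwards [eventually_ge_atTop (Real.exp 1)] with r hr
      have hr0 : 0 < r := (Real.exp_pos 1).trans_le hr
      have h1 : 1 ≤ Real.log r := (Real.le_log_iff_exp_le hr0).2 hr
      rw [hT r hr0.ne']
      simp only [zero_mul, zero_add]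
      rw [Real.circleAverage_const]
      refine (le_abs_self _).trans ?_
      rw [abs_div]
      refine div_le_self (abs_nonneg _) ?_
      rw [abs_of_nonneg (by linarith)]
      exact h1
    · refine ⟨2, ?_⟩
      have ha0 : 0 < ‖a‖ := norm_pos_iff.2 ha
      filter_upwards [eventually_ge_atTop (Real.exp 1), eventually_ge_atTop ((Real.exp 1 + ‖b‖) / ‖a‖),
        eventually_ge_atTop (‖a‖ + ‖b‖)] with r hr hr2 hr3
      have hr0 : 0 < r := (Real.exp_pos 1).trans_le hr
      have hr1 : 1 ≤ r := (Real.one_le_exp zero_le_one).trans hr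
      have h1 : 1 ≤ Real.log r := (Real.le_log_iff_exp_le hr0).2 hr
      rw [hT r hr0.ne']
      have hci : CircleIntegrable (fun z : ℂ => Real.posLog ‖a * z + b‖) 0 r := by
        refine ContinuousOn.circleIntegrable hr0.le ?_
        exact (Real.continuous_posLog.comp (by fun_prop : Continuous fun z : ℂ => ‖a * z + b‖)).continuousOn
      have hup : Real.circleAverage (fun z : ℂ => Real.posLog ‖a * z + b‖) 0 r ≤ r ^ 2 := by
        refine Real.circleAverage_mono_on_of_le_circle hci fun z hz => ?_
        rw [mem_sphere_zero_iff_norm, abs_of_pos hr0] at hz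
        have h2 : ‖a * z + b‖ ≤ ‖a‖ * r + ‖b‖ := by
          refine (norm_add_le _ _).trans ?_
          rw [norm_mul, hz]
        have h3 : Real.posLog ‖a * z + b‖ ≤ ‖a * z + b‖ := by
          rw [Real.posLog_apply]
          exact max_le (norm_nonneg _) (Real.log_le_self (norm_nonneg _))
        nlinarith [norm_nonneg b]
      have hlo : 1 ≤ Real.circleAverage (fun z : ℂ => Real.posLog ‖a * z + b‖) 0 r := by
        have h2 : Real.circleAverage (fun _ : ℂ => (1 : ℝ)) 0 r ≤
            Real.circleAverage (fun z : ℂ => Real.posLog ‖a * z + b‖) 0 r := by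
          refine Real.circleAverage_mono (circleIntegrable_const 1 0 r) hci fun z hz => ?_
          rw [mem_sphere_zero_iff_norm, abs_of_pos hr0] at hz
          have h3 : Real.exp 1 ≤ ‖a * z + b‖ := by
            have h4 : ‖a * z‖ ≤ ‖a * z + b‖ + ‖b‖ := by
              have := norm_sub_le (a * z + b) b
              rwa [add_sub_cancel_right] at this
            rw [norm_mul, hz] at h4
            have h5 : Real.exp 1 + ‖b‖ ≤ r * ‖a‖ := (div_le_iff₀ ha0).1 hr2
            linarith
          rw [Real.posLog_apply]
          exact le_max_of_le_right ((Real.le_log_iff_exp_le ((Real.exp_pos 1).trans_le h3)).2 h3)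
        rwa [Real.circleAverage_const] at h2
      set T := Real.circleAverage (fun z : ℂ => Real.posLog ‖a * z + b‖) 0 r
      rw [div_le_iff₀ (by linarith)]
      have h2 : Real.log (Real.log T) ≤ Real.log T := Real.log_le_self (Real.log_nonneg hlo)
      have h3 : Real.log T ≤ Real.log (r ^ 2) := Real.log_le_log (by linarith) hup
      rw [Real.log_pow] at h3
      push_cast at h3
      linarith
  obtain ⟨K, hK⟩ := key
  have h1 : limsup (fun r : ℝ => ((Real.log (Real.log (characteristic f ⊤ r)) / Real.log r : ℝ) : EReal)) atTop ≤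
      (K : EReal) := by
    refine Filter.limsup_le_of_le (by isBoundedDefault) ?_
    filter_upwards [hK] with r hr
    exact EReal.coe_le_coe_iff.2 hr
  exact ne_top_of_le_ne_top (EReal.coe_ne_top K) h1

end Pool.Agent.Q38.DS
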